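import Mathlib

/-! One-way multicounter machines, partially blind machines, reversals (for MP_24384b_lc). -/

namespace Run7.h452.PB

/-- A move of a machine with `k` counters and state set `Q`: the new state, whether the head
advances to the next cell, and the changes of the counters. -/
structure Move (k : ℕ) (Q : Type) where
  state : Q
  adv : Bool
  chg : Fin k → ℤ

/-- A one-way multicounter machine with input alphabet `A`.  `table q x z` is the set of moves in
state `q` when the scanned symbol is `x` (`none`: the head is behind the last letter) and `z i`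
tells whether counter `i` is zero. -/
structure Machine (A : Type) where
  k : ℕ
  Q : Type
  fin : Finite Q
  start : Q
  final : Set Q
  table : Q → Option A → (Fin k → Prop) → Set (Move k Q)

/-- A configuration: state, part of the input word not yet passed by the head (the head scans
its first letter), contents of the counters. -/
structure Conf {A : Type} (M : Machine A) where
  q : M.Q
  u : List A
  v : Fin M.k → ℕ

/-- The move `m` is possible in the configuration `C` and leads to `C'`.  With `e = true` the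
machine has an end marker (moves are possible when the head is behind the last letter), with
`e = false` it has none. -/
def Step {A : Type} (e : Bool) (M : Machine A) (C : Conf M) (m : Move M.k M.Q) (C' : Conf M) :
    Prop :=
  m ∈ M.table C.q C.u.head? (fun i => C.v i = 0) ∧ (C.u = [] → e = true) ∧
    C'.q = m.state ∧
    (m.adv = true → ∃ a, C.u = a :: C'.u) ∧ (m.adv = false → C'.u = C.u) ∧
    ∀ i, (m.chg i = -1 ∨ m.chg i = 0 ∨ m.chg i = 1) ∧ (C'.v i : ℤ) = C.v i + m.chg i

/-- Computations, with their lists of moves. -/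
inductive Run {A : Type} (e : Bool) (M : Machine A) :
    Conf M → List (Move M.k M.Q) → Conf M → Prop
  | nil (C : Conf M) : Run e M C [] C
  | cons {C C₁ C₂ : Conf M} {m : Move M.k M.Q} {l : List (Move M.k M.Q)} :
      Step e M C m C₁ → Run e M C₁ l C₂ → Run e M C (m :: l) C₂

/-- The initial configuration on the input word `w`. -/
def init {A : Type} (M : Machine A) (w : List A) : Conf M := ⟨M.start, w, fun _ => 0⟩

/-- The number of reversals of one counter: the number of changes of sign in the sequence of its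
changes (zeros are skipped); `d` is the previous nonzero change (`0` at the start). -/
def rev : ℤ → List ℤ → ℕ
  | _, [] => 0
  | d, x :: xs => if x = 0 then rev d xs else (if d * x < 0 then 1 else 0) + rev x xs

/-- The number of reversals of a computation. -/
def reversals {k : ℕ} {Q : Type} (l : List (Move k Q)) : ℕ :=
  ∑ i, rev 0 (l.map fun m => m.chg i)

/-- The machine is deterministic: in every configuration at most one move is possible. -/
def Deterministic {A : Type} (e : Bool) (M : Machine A) : Prop :=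
  ∀ (C C₁ C₂ : Conf M) (m₁ m₂ : Move M.k M.Q), Step e M C m₁ C₁ → Step e M C m₂ C₂ → m₁ = m₂

/-- The machine is quasi-realtime: every stretch of any computation during which the head stays on
the same cell has length at most `d`. -/
def QuasiRealtime {A : Type} (e : Bool) (M : Machine A) : Prop :=
  ∃ d : ℕ, ∀ (w : List A) (l₁ l₂ : List (Move M.k M.Q)) (C₁ C₂ : Conf M),
    Run e M (init M w) l₁ C₁ → Run e M C₁ l₂ C₂ → C₂.u = C₁.u → l₂.length ≤ d

/-- The machine is partially blind: the moves do not depend on whether counters are zero. -/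
def PartiallyBlind {A : Type} (M : Machine A) : Prop :=
  ∀ q x z z', M.table q x z = M.table q x z'

/-- `L_{Rc}(M)`: the words with an accepting computation with at most `c` reversals
(`c = ⊤`: any number). -/
def langR {A : Type} (e : Bool) (c : ℕ∞) (M : Machine A) : Set (List A) :=
  {w | ∃ l C, Run e M (init M w) l C ∧ C.u = [] ∧ C.q ∈ M.final ∧ (∀ i, C.v i = 0) ∧
    (reversals l : ℕ∞) ≤ c}

/-- The class `𝓛_{Rc}(QR-DCOUNTER)`, languages over `A`. -/
def DCounter (e : Bool) (c : ℕ∞) (A : Type) : Set (Set (List A)) :=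
  {L | ∃ M : Machine A, Deterministic e M ∧ QuasiRealtime e M ∧ langR e c M = L}

/-- The class `𝓛_{Rc}(QR-DPBLIND)`, languages over `A`. -/
def DPBlind (e : Bool) (c : ℕ∞) (A : Type) : Set (Set (List A)) :=
  {L | ∃ M : Machine A, Deterministic e M ∧ QuasiRealtime e M ∧ PartiallyBlind M ∧
    langR e c M = L}

/-! ### Reversals of sublists -/

theorem rev_sign (d d' : ℤ) (h : SignType.sign d = SignType.sign d') (l : List ℤ) :
    rev d l = rev d' l := by
  induction l with
  | nil => rfl
  | cons x xs ih =>
    unfold rev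
    by_cases hx : x = 0
    · simp [hx, ih]
    · simp only [hx, if_false]
      have : d * x < 0 ↔ d' * x < 0 := by
        rw [← sign_eq_neg_one_iff, ← sign_eq_neg_one_iff, sign_mul, sign_mul, h]
      simp [this]

theorem rev_le_add_one (d d' : ℤ) (l : List ℤ) : rev d l ≤ rev d' l + 1 := by
  induction l with
  | nil => simp [rev]
  | cons x xs ih =>
    unfold rev
    by_cases hx : x = 0
    · simpa [hx] using ih
    · simp only [hx, if_false]
      split_ifs <;> omega

theorem rev_zero_le (d : ℤ) (l : List ℤ) : rev 0 l ≤ rev d l := by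
  induction l with
  | nil => simp [rev]
  | cons x xs ih =>
    unfold rev
    by_cases hx : x = 0
    · simpa [hx] using ih
    · simp only [hx, if_false]
      simp

theorem rev_tail_le (d x : ℤ) (xs : List ℤ) : rev d xs ≤ rev d (x :: xs) := by
  conv_rhs => unfold rev
  by_cases hx : x = 0
  · simp [hx]
  · simp only [hx, if_false]
    by_cases hd : d * x < 0
    · simp only [hd, if_true]
      have := rev_le_add_one d x xs
      omega
    · simp only [hd, if_false]
      by_cases hd0 : d = 0
      · subst hd0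
        simpa using rev_zero_le x xs
      · have : SignType.sign d = SignType.sign x := by
          rcases lt_or_gt_of_ne hd0 with h1 | h1 <;> rcases lt_or_gt_of_ne hx with h2 | h2
          · rw [sign_neg h1, sign_neg h2]
          · exact absurd (mul_neg_of_neg_of_pos h1 h2) hd
          · exact absurd (mul_neg_of_pos_of_neg h1 h2) hd
          · rw [sign_pos h1, sign_pos h2]
        rw [rev_sign d x this]
        simp

theorem rev_append_le (d : ℤ) (l₁ l₂ l₃ : List ℤ) :
    rev d (l₁ ++ l₃) ≤ rev d (l₁ ++ (l₂ ++ l₃)) := by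
  induction l₁ generalizing d with
  | nil =>
    simp only [List.nil_append]
    induction l₂ with
    | nil => simp
    | cons x xs ih => exact ih.trans (rev_tail_le d x _)
  | cons x xs ih =>
    simp only [List.cons_append]
    unfold rev
    by_cases hx : x = 0
    · simpa [hx] using ih d
    · simp only [hx, if_false]
      have := ih x
      omega

theorem reversals_append_le {k : ℕ} {Q : Type} (l₁ l₂ l₃ : List (Move k Q)) :
    reversals (l₁ ++ l₃) ≤ reversals (l₁ ++ (l₂ ++ l₃)) := by
  unfold reversals
  refine Finset.sum_le_sum fun i _ => ?_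
  simp only [List.map_append]
  exact rev_append_le 0 _ _ _

/-! ### Computations -/

variable {A : Type} {e : Bool} {M : Machine A}

/-- The computation passes over the word `u`; the last move is the one which leaves the last
letter of `u`. -/
inductive Arr (e : Bool) (M : Machine A) :
    M.Q → (Fin M.k → ℕ) → List A → List (Move M.k M.Q) → M.Q → (Fin M.k → ℕ) → Prop
  | nil (q : M.Q) (v : Fin M.k → ℕ) : Arr e M q v [] [] q v
  | stay {q q' : M.Q} {v v₁ v' : Fin M.k → ℕ} {a : A} {u : List A} {m : Move M.k M.Q}
      {l : List (Move M.k M.Q)} :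
      m ∈ M.table q (some a) (fun i => v i = 0) → m.adv = false →
      (∀ i, (m.chg i = -1 ∨ m.chg i = 0 ∨ m.chg i = 1) ∧ (v₁ i : ℤ) = v i + m.chg i) →
      Arr e M m.state v₁ (a :: u) l q' v' → Arr e M q v (a :: u) (m :: l) q' v'
  | adv {q q' : M.Q} {v v₁ v' : Fin M.k → ℕ} {a : A} {u : List A} {m : Move M.k M.Q}
      {l : List (Move M.k M.Q)} :
      m ∈ M.table q (some a) (fun i => v i = 0) → m.adv = true →
      (∀ i, (m.chg i = -1 ∨ m.chg i = 0 ∨ m.chg i = 1) ∧ (v₁ i : ℤ) = v i + m.chg i) →
      Arr e M m.state v₁ u l q' v' → Arr e M q v (a :: u) (m :: l) q' v'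

theorem Arr.glue {q q' : M.Q} {v v' : Fin M.k → ℕ} {u : List A} {l : List (Move M.k M.Q)}
    (h : Arr e M q v u l q' v') : ∀ {t : List A} {l₂ : List (Move M.k M.Q)} {C : Conf M},
    Run e M ⟨q', t, v'⟩ l₂ C → Run e M ⟨q, u ++ t, v⟩ (l ++ l₂) C := by
  induction h with
  | nil q v => intro t l₂ C h; simpa using h
  | @stay q q' v v₁ v' a u m l hm hs hc _ ih =>
    intro t l₂ C h
    refine Run.cons (C₁ := ⟨m.state, a :: (u ++ t), v₁⟩) ?_ (ih h)
    exact ⟨by simpa using hm, by simp, rfl, by simp [hs], by simp, hc⟩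
  | @adv q q' v v₁ v' a u m l hm hs hc _ ih =>
    intro t l₂ C h
    refine Run.cons (C₁ := ⟨m.state, u ++ t, v₁⟩) ?_ (ih h)
    exact ⟨by simpa using hm, by simp, rfl, fun _ => ⟨a, by simp⟩, by simp [hs], hc⟩

theorem Arr.append {q q' q'' : M.Q} {v v' v'' : Fin M.k → ℕ} {u u' : List A}
    {l l' : List (Move M.k M.Q)}
    (h : Arr e M q v u l q' v') (h' : Arr e M q' v' u' l' q'' v'') :
    Arr e M q v (u ++ u') (l ++ l') q'' v'' := by
  induction h with
  | nil q v => simpa using h'
  | stay hm hs hc _ ih => exact Arr.stay hm hs hc (ih h')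
  | adv hm hs hc _ ih => exact Arr.adv hm hs hc (ih h')

theorem Run.split {C C' : Conf M} {l : List (Move M.k M.Q)} (h : Run e M C l C')
    (hC' : C'.u = []) : ∀ (u t : List A), C.u = u ++ t →
    ∃ l₁ l₂ q₁ v₁, l = l₁ ++ l₂ ∧ Arr e M C.q C.v u l₁ q₁ v₁ ∧ Run e M ⟨q₁, t, v₁⟩ l₂ C' := by
  induction h with
  | nil C =>
    intro u t hu
    rw [hC'] at hu
    obtain ⟨rfl, rfl⟩ : u = [] ∧ t = [] := by simpa using hu.symm
    refine ⟨[], [], C.q, C.v, rfl, Arr.nil _ _, ?_⟩
    rcases C with ⟨q, u, v⟩
    simp only at hC'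
    subst hC'
    exact Run.nil _
  | @cons C C₁ C₂ m l hs hr ih =>
    intro u t hu
    cases u with
    | nil =>
      refine ⟨[], m :: l, C.q, C.v, rfl, Arr.nil _ _, ?_⟩
      rcases C with ⟨q, u, v⟩
      simp only [List.nil_append] at hu
      subst hu
      exact Run.cons hs hr
    | cons a u =>
      obtain ⟨hm, -, hq, ha, hst, hc⟩ := hs
      rw [hu] at hm
      simp only [List.cons_append, List.head?_cons] at hm
      rcases hadv : m.adv with _ | _
      · have h1 := hst hadv
        rw [hu] at h1
        obtain ⟨l₁, l₂, q₁, v₁, rfl, hA, hR⟩ := ih hC' (a :: u) t h1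
        refine ⟨m :: l₁, l₂, q₁, v₁, rfl, ?_, hR⟩
        rw [hq] at hA
        exact Arr.stay hm hadv hc hA
      · obtain ⟨b, hb⟩ := ha hadv
        rw [hu, List.cons_append, List.cons.injEq] at hb
        obtain ⟨l₁, l₂, q₁, v₁, rfl, hA, hR⟩ := ih hC' u t hb.2.symm
        refine ⟨m :: l₁, l₂, q₁, v₁, rfl, ?_, hR⟩
        rw [hq] at hA
        exact Arr.adv hm hadv hc hA

theorem Arr.split {q q' : M.Q} {v v' : Fin M.k → ℕ} {w : List A} {l : List (Move M.k M.Q)}
    (h : Arr e M q v w l q' v') : ∀ (u t : List A), w = u ++ t →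
    ∃ l₁ l₂ q₁ v₁, l = l₁ ++ l₂ ∧ Arr e M q v u l₁ q₁ v₁ ∧ Arr e M q₁ v₁ t l₂ q' v' := by
  induction h with
  | nil q v =>
    intro u t hu
    obtain ⟨rfl, rfl⟩ : u = [] ∧ t = [] := by simpa using hu.symm
    exact ⟨[], [], q, v, rfl, Arr.nil _ _, Arr.nil _ _⟩
  | @stay q q' v v₁ v' a w m l hm hs hc hr ih =>
    intro u t hu
    cases u with
    | nil =>
      simp only [List.nil_append] at hu
      subst hu
      exact ⟨[], m :: l, q, v, rfl, Arr.nil _ _, Arr.stay hm hs hc hr⟩
    | cons b u =>
      obtain ⟨l₁, l₂, q₁, v₂, rfl, hA, hR⟩ := ih (b :: u) t hu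
      rw [List.cons_append, List.cons.injEq] at hu
      obtain ⟨rfl, -⟩ := hu
      exact ⟨m :: l₁, l₂, q₁, v₂, rfl, Arr.stay hm hs hc hA, hR⟩
  | @adv q q' v v₁ v' a w m l hm hs hc hr ih =>
    intro u t hu
    cases u with
    | nil =>
      simp only [List.nil_append] at hu
      subst hu
      exact ⟨[], m :: l, q, v, rfl, Arr.nil _ _, Arr.adv hm hs hc hr⟩
    | cons b u =>
      rw [List.cons_append, List.cons.injEq] at hu
      obtain ⟨rfl, hu⟩ := hu
      obtain ⟨l₁, l₂, q₁, v₂, rfl, hA, hR⟩ := ih u t hu
      exact ⟨m :: l₁, l₂, q₁, v₂, rfl, Arr.adv hm hs hc hA, hR⟩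

/-- The total change of counter `i` along a list of moves. -/
def tot {k : ℕ} {Q : Type} (l : List (Move k Q)) (i : Fin k) : ℤ := (l.map fun m => m.chg i).sum

theorem tot_append {k : ℕ} {Q : Type} (l l' : List (Move k Q)) (i : Fin k) :
    tot (l ++ l') i = tot l i + tot l' i := by simp [tot]

theorem Arr.tot_eq {q q' : M.Q} {v v' : Fin M.k → ℕ} {u : List A} {l : List (Move M.k M.Q)}
    (h : Arr e M q v u l q' v') (i : Fin M.k) : (v' i : ℤ) = v i + tot l i := by
  induction h with
  | nil q v => simp [tot]
  | @stay q q' v v₁ v' a w m l hm hs hc hr ih =>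
    rw [ih, (hc i).2]
    simp only [tot, List.map_cons, List.sum_cons]
    ring
  | @adv q q' v v₁ v' a w m l hm hs hc hr ih =>
    rw [ih, (hc i).2]
    simp only [tot, List.map_cons, List.sum_cons]
    ring

theorem Run.tot_eq {C C' : Conf M} {l : List (Move M.k M.Q)} (h : Run e M C l C')
    (i : Fin M.k) : (C'.v i : ℤ) = C.v i + tot l i ∧ |tot l i| ≤ l.length := by
  induction h with
  | nil C => simp [tot]
  | @cons C C₁ C₂ m l hs hr ih =>
    obtain ⟨-, -, -, -, -, hc⟩ := hs
    have hc := hc i
    constructor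
    · rw [ih.1, hc.2]
      simp only [tot, List.map_cons, List.sum_cons]
      ring
    · have h1 := ih.2
      simp only [tot, List.map_cons, List.sum_cons, List.length_cons] at h1 ⊢
      have h2 : |m.chg i| ≤ 1 := by
        rcases hc.1 with h | h | h <;> simp [h]
      push_cast
      exact (abs_add_le _ _).trans (by linarith)

/-- Determinism at the level of the table for partially blind machines. -/
theorem det_move (hd : Deterministic e M) (hb : PartiallyBlind M) {q : M.Q} {a : A}
    {z z' : Fin M.k → Prop} {m m' : Move M.k M.Q}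
    (hm : m ∈ M.table q (some a) z) (hm' : m' ∈ M.table q (some a) z')
    (hc : ∀ i, m.chg i = -1 ∨ m.chg i = 0 ∨ m.chg i = 1)
    (hc' : ∀ i, m'.chg i = -1 ∨ m'.chg i = 0 ∨ m'.chg i = 1) : m = m' := by
  have key : ∀ (n : Move M.k M.Q) (z : Fin M.k → Prop), n ∈ M.table q (some a) z →
      (∀ i, n.chg i = -1 ∨ n.chg i = 0 ∨ n.chg i = 1) →
      ∃ C, Step e M ⟨q, [a], fun _ => 1⟩ n C := by
    intro n z hn hc
    refine ⟨⟨n.state, if n.adv then [] else [a], fun i => (1 + n.chg i).toNat⟩, ?_, by simp, rfl,
      ?_, ?_, ?_⟩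
    · rw [hb q _ _ z]
      exact hn
    · intro h
      exact ⟨a, by simp [h]⟩
    · intro h
      simp [h]
    · intro i
      refine ⟨hc i, ?_⟩
      rcases hc i with h | h | h <;> simp [h]
  obtain ⟨C, hC⟩ := key m z hm hc
  obtain ⟨C', hC'⟩ := key m' z' hm' hc'
  exact hd _ _ _ _ _ hC hC'

theorem Arr.det (hd : Deterministic e M) (hb : PartiallyBlind M) {q q' : M.Q}
    {v v' : Fin M.k → ℕ} {u : List A} {l : List (Move M.k M.Q)}
    (h : Arr e M q v u l q' v') : ∀ {q'' : M.Q} {w w' : Fin M.k → ℕ} {l' : List (Move M.k M.Q)},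
    Arr e M q w u l' q'' w' → l = l' ∧ q' = q'' := by
  induction h with
  | nil q v =>
    intro q'' w w' l' h
    cases h
    exact ⟨rfl, rfl⟩
  | @stay q q' v v₁ v' a u m l hm hs hc hr ih =>
    intro q'' w w' l' h
    cases h with
    | stay hm' hs' hc' hr' =>
      obtain rfl := det_move hd hb hm hm' (fun i => (hc i).1) (fun i => (hc' i).1)
      obtain ⟨rfl, rfl⟩ := ih hr'
      exact ⟨rfl, rfl⟩
    | adv hm' hs' hc' hr' =>
      obtain rfl := det_move hd hb hm hm' (fun i => (hc i).1) (fun i => (hc' i).1)
      rw [hs] at hs'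
      exact absurd hs' (by simp)
  | @adv q q' v v₁ v' a u m l hm hs hc hr ih =>
    intro q'' w w' l' h
    cases h with
    | stay hm' hs' hc' hr' =>
      obtain rfl := det_move hd hb hm hm' (fun i => (hc i).1) (fun i => (hc' i).1)
      rw [hs] at hs'
      exact absurd hs' (by simp)
    | adv hm' hs' hc' hr' =>
      obtain rfl := det_move hd hb hm hm' (fun i => (hc i).1) (fun i => (hc' i).1)
      obtain ⟨rfl, rfl⟩ := ih hr'
      exact ⟨rfl, rfl⟩

end Run7.h452.PB
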