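import Pool.Agent.Run7.h452.PB.Basic

/-! Deterministic partially blind machines against deterministic counter machines. -/

namespace Run7.h452.PB

/-- The language `{aⁿbᵐ : n ≤ m}`. -/
def Lnm : Set (List Bool) :=
  {w | ∃ n m : ℕ, n ≤ m ∧ w = List.replicate n false ++ List.replicate m true}

section Neg

variable {A : Type} {e : Bool} {M : Machine A}

theorem Arr.loop (hd : Deterministic e M) (hb : PartiallyBlind M) {q : M.Q}
    {v₀ v₀' : Fin M.k → ℕ} {x : List A} {R : List (Move M.k M.Q)}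
    (hR : Arr e M q v₀ x R q v₀') : ∀ (r : ℕ) {v v' : Fin M.k → ℕ} {q' : M.Q}
      {l : List (Move M.k M.Q)}, Arr e M q v (List.replicate r x).flatten l q' v' →
      q' = q ∧ ∀ i, tot l i = r * tot R i := by
  intro r
  induction r with
  | zero =>
    intro v v' q' l h
    simp only [List.replicate_zero, List.flatten_nil] at h
    cases h
    exact ⟨rfl, by simp [tot]⟩
  | succ r ih =>
    intro v v' q' l h
    rw [List.replicate_succ, List.flatten_cons] at h
    obtain ⟨l₁, l₂, q₁, v₁, rfl, h₁, h₂⟩ := h.split _ _ rfl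
    obtain ⟨rfl, rfl⟩ := h₁.det hd hb hR
    obtain ⟨hq, ht⟩ := ih h₂
    refine ⟨hq, fun i => ?_⟩
    rw [tot_append, ht i]
    push_cast
    ring

end Neg

theorem mem_Lnm {n m : ℕ} :
    List.replicate n false ++ List.replicate m true ∈ Lnm ↔ n ≤ m := by
  constructor
  · rintro ⟨n', m', h, he⟩
    have h1 := congrArg (List.count false) he
    have h2 := congrArg (List.count true) he
    simp only [List.count_append, List.count_replicate] at h1 h2
    simp at h1 h2
    omega
  · intro h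
    exact ⟨n, m, h, rfl⟩

theorem flatten_replicate_replicate (r p : ℕ) (x : Bool) :
    (List.replicate r (List.replicate p x)).flatten = List.replicate (r * p) x := by
  simp

/-- No deterministic quasi-realtime partially blind machine accepts `{aⁿbᵐ : n ≤ m}`, even with
any bound on the number of reversals. -/
theorem not_dpblind (e : Bool) (c : ℕ∞) : Lnm ∉ DPBlind e c Bool := by
  rintro ⟨M, hd, ⟨d, hqr⟩, hb, hL⟩
  have := M.fin
  set N := Nat.card M.Q with hN
  -- accepted words
  have acc : ∀ m : ℕ, N ≤ m → ∃ l C, Run e M (init M (List.replicate N false ++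
      List.replicate m true)) l C ∧ C.u = [] ∧ C.q ∈ M.final ∧ (∀ i, C.v i = 0) ∧
      (reversals l : ℕ∞) ≤ c := by
    intro m hm
    have : List.replicate N false ++ List.replicate m true ∈ langR e c M := by
      rw [hL]
      exact mem_Lnm.2 hm
    exact this
  -- the states after `a ^ N b ^ j`
  have pre : ∀ j : Fin (N + 1), ∃ (l : List (Move M.k M.Q)) (q : M.Q) (v : Fin M.k → ℕ),
      Arr e M M.start (fun _ => 0) (List.replicate N false ++ List.replicate j true) l q v := by
    intro j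
    obtain ⟨l, C, hr, hu, -⟩ := acc N le_rfl
    obtain ⟨l₁, l₂, q₁, v₁, -, h, -⟩ := hr.split hu
      (List.replicate N false ++ List.replicate j true) (List.replicate (N - j) true) (by
        have hj : (j : ℕ) ≤ N := by omega
        simp only [init, List.append_assoc, List.replicate_append_replicate]
        congr 2
        omega)
    exact ⟨l₁, q₁, v₁, h⟩
  choose lst st vst hst using pre
  obtain ⟨i, j, hij, hs⟩ : ∃ i j : Fin (N + 1), i < j ∧ st i = st j := by
    have : ¬ Function.Injective st := by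
      intro hinj
      have := Nat.card_le_card_of_injective st hinj
      simp at this
      omega
    simp only [Function.Injective, not_forall] at this
    obtain ⟨i, j, hs, hne⟩ := this
    rcases lt_or_gt_of_ne hne with h | h
    · exact ⟨i, j, h, hs⟩
    · exact ⟨j, i, h, hs.symm⟩
  set u₀ := List.replicate N false ++ List.replicate (i : ℕ) true with hu₀
  set p : ℕ := j - i with hp
  have hij' : (i : ℕ) < j := hij
  have hjN : (j : ℕ) ≤ N := by omega
  -- the cycle
  obtain ⟨l₁, R, q₁, v₁, hl, h₁, hR⟩ := (hst j).split u₀ (List.replicate p true) (by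
    rw [hu₀, List.append_assoc, List.replicate_append_replicate]
    congr 2
    omega)
  obtain ⟨hl₁, hq₁⟩ := (hst i).det hd hb h₁
  subst hq₁
  subst hl₁
  rw [← hs] at hR
  -- the total change in the cycle is zero
  have hΔ : ∀ x, tot R x = 0 := by
    -- the parts common to all runs
    have words : ∀ r : ℕ, ∃ (l₃ l₄ l₅ : List (Move M.k M.Q)) (q₄ : M.Q) (v₃ v₄ : Fin M.k → ℕ),
        Arr e M (st i) v₃ (List.replicate (N - i) true) l₄ q₄ v₄ ∧
        l₅.length ≤ d ∧ (∀ x, (v₃ x : ℤ) = vst i x + r * tot R x) ∧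
        ∀ x, (0 : ℤ) = vst i x + r * tot R x + tot l₄ x + tot l₅ x ∧ |tot l₅ x| ≤ d := by
      intro r
      obtain ⟨l, C, hr, hu, -, hv, -⟩ := acc (N + r * p) (by omega)
      obtain ⟨k₁, k₂, p₁, w₁, rfl, g₁, g₂⟩ := hr.split hu u₀
        ((List.replicate r (List.replicate p true)).flatten ++ List.replicate (N - i) true) (by
          rw [flatten_replicate_replicate, hu₀]
          simp only [init, List.append_assoc, List.replicate_append_replicate]
          congr 2
          omega)
      simp only [init] at g₁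
      obtain ⟨rfl, rfl⟩ := (hst i).det hd hb g₁
      have hw₁ : w₁ = vst i := by
        funext x
        have e1 := g₁.tot_eq x
        have e2 := (hst i).tot_eq x
        rw [← e2] at e1
        exact_mod_cast e1
      subst hw₁
      obtain ⟨k₃, k₄, p₃, w₃, rfl, g₃, g₄⟩ := g₂.split hu _ _ rfl
      obtain ⟨rfl, ht⟩ := Arr.loop hd hb hR r g₃
      obtain ⟨k₅, k₆, p₅, w₅, rfl, g₅, g₆⟩ := g₄.split hu (List.replicate (N - i) true) []
        (by simp)
      have hd6 : k₆.length ≤ d := by
        have h := (g₁.append (g₃.append g₅)).glue (t := []) (Run.nil _)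
        rw [List.append_nil] at h
        exact hqr _ _ k₆ _ C h g₆ (by simp [hu])
      refine ⟨k₃, k₅, k₆, p₅, w₃, w₅, g₅, hd6, ?_, ?_⟩
      · intro x
        rw [g₃.tot_eq x, ht x]
      · intro x
        have e1 := g₃.tot_eq x
        have e2 := g₅.tot_eq x
        have e3 := g₆.tot_eq x
        simp only [hv x] at e3
        rw [e2, e1, ht x] at e3
        refine ⟨by simpa using e3.1, e3.2.trans (by exact_mod_cast hd6)⟩
    obtain ⟨-, l₄, -, q₄, v₃, v₄, hA, -⟩ := words 0
    intro x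
    -- a bound which does not depend on `r`
    have bd : ∀ r : ℕ, |(r : ℤ) * tot R x| ≤ |(vst i x : ℤ) + tot l₄ x| + d := by
      intro r
      obtain ⟨-, l₄', l₅', q₄', v₃', v₄', hA', -, -, hx⟩ := words r
      obtain ⟨rfl, -⟩ := hA.det hd hb hA'
      obtain ⟨h0, h1⟩ := hx x
      have : (r : ℤ) * tot R x = -((vst i x : ℤ) + tot l₄ x) + -(tot l₅' x) := by linarith
      rw [this]
      refine (abs_add_le _ _).trans ?_
      rw [abs_neg, abs_neg]
      linarith
    by_contra hne
    set K : ℤ := |(vst i x : ℤ) + tot l₄ x| + d with hK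
    have hK0 : 0 ≤ K := by positivity
    have := bd (K.toNat + 1)
    rw [abs_mul] at this
    have h1 : 1 ≤ |tot R x| := Int.one_le_abs hne
    have h2 : |((K.toNat + 1 : ℕ) : ℤ)| = K + 1 := by
      push_cast
      rw [Int.toNat_of_nonneg hK0, abs_of_nonneg (by linarith)]
    rw [h2] at this
    nlinarith
  -- cut the cycle out of the computation on `a ^ N b ^ N`
  obtain ⟨l, C, hr, hu, hf, hv, hc⟩ := acc N le_rfl
  obtain ⟨k₁, k₂, p₁, w₁, rfl, g₁, g₂⟩ := hr.split hu u₀
    (List.replicate p true ++ List.replicate (N - j) true) (by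
      simp only [hu₀, init, List.append_assoc, List.replicate_append_replicate]
      congr 2
      omega)
  obtain ⟨rfl, rfl⟩ := (hst i).det hd hb g₁
  obtain ⟨k₃, k₄, p₃, w₃, rfl, g₃, g₄⟩ := g₂.split hu _ _ rfl
  obtain ⟨rfl, rfl⟩ := hR.det hd hb g₃
  have hw : w₃ = w₁ := by
    funext x
    have e1 := g₃.tot_eq x
    rw [hΔ x] at e1
    have : (w₃ x : ℤ) = w₁ x := by simpa using e1
    exact_mod_cast this
  subst hw
  have hrun := g₁.glue g₄
  have hmem : u₀ ++ List.replicate (N - j) true ∈ langR e c M := by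
    refine ⟨_, C, hrun, hu, hf, hv, ?_⟩
    refine le_trans ?_ hc
    exact_mod_cast reversals_append_le _ _ _
  rw [hL, hu₀, List.append_assoc, List.replicate_append_replicate, mem_Lnm] at hmem
  omega

/-! ### The counter machine for `{aⁿbᵐ : n ≤ m}` -/

/-- The counter machine: state `false` while reading `a`, state `true` while reading `b`. -/
def cm : Machine Bool where
  k := 1
  Q := Bool
  fin := inferInstance
  start := false
  final := Set.univ
  table := fun q x z => {m | m.adv = true ∧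
    ((x = some false ∧ q = false ∧ m.state = false ∧ m.chg = fun _ => 1) ∨
     (x = some true ∧ m.state = true ∧ z 0 ∧ m.chg = fun _ => 0) ∨
     (x = some true ∧ m.state = true ∧ ¬ z 0 ∧ m.chg = fun _ => -1))}

instance : NeZero cm.k := ⟨Nat.one_ne_zero⟩

instance : Subsingleton (Fin cm.k) := inferInstanceAs (Subsingleton (Fin 1))

theorem cm_step {e : Bool} {C C' : Conf cm} {m : Move cm.k cm.Q} (h : Step e cm C m C') :
    (∃ t, C.u = false :: t ∧ C'.u = t ∧ C.q = false ∧ C'.q = false ∧ m.chg 0 = 1 ∧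
      C'.v 0 = C.v 0 + 1) ∨
    (∃ t, C.u = true :: t ∧ C'.u = t ∧ C'.q = true ∧
      (m.chg 0 = 0 ∧ C.v 0 = 0 ∧ C'.v 0 = 0 ∨ m.chg 0 = -1 ∧ C.v 0 = C'.v 0 + 1)) := by
  obtain ⟨⟨hadv, hm⟩, -, hq, ha, -, hc⟩ := h
  obtain ⟨a, hu⟩ := ha hadv
  have h0 := (hc (0 : Fin 1)).2
  rcases hm with ⟨hx, hq', hs, hch⟩ | ⟨hx, hs, hz, hch⟩ | ⟨hx, hs, hz, hch⟩
  · left
    rw [hu] at hx
    simp only [List.head?_cons, Option.some.injEq] at hx
    subst hx
    refine ⟨C'.u, hu, rfl, hq', hq.trans hs, by rw [hch], ?_⟩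
    rw [hch] at h0
    have : (C'.v (0 : Fin 1) : ℤ) = ((C.v (0 : Fin 1) + 1 : ℕ) : ℤ) := by
      rw [h0]; push_cast; ring
    exact_mod_cast this
  · right
    rw [hu] at hx
    simp only [List.head?_cons, Option.some.injEq] at hx
    subst hx
    refine ⟨C'.u, hu, rfl, hq.trans hs, Or.inl ⟨by rw [hch], hz, ?_⟩⟩
    rw [hch] at h0
    have hz' : C.v (0 : Fin 1) = 0 := hz
    rw [hz'] at h0
    have h1 : C'.v (0 : Fin 1) = 0 := by simpa using h0
    exact h1
  · right
    rw [hu] at hx
    simp only [List.head?_cons, Option.some.injEq] at hx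
    subst hx
    refine ⟨C'.u, hu, rfl, hq.trans hs, Or.inr ⟨by rw [hch], ?_⟩⟩
    rw [hch] at h0
    have : (C.v (0 : Fin 1) : ℤ) = ((C'.v (0 : Fin 1) + 1 : ℕ) : ℤ) := by
      push_cast; rw [h0]; ring
    exact_mod_cast this

theorem cm_length {e : Bool} {C C' : Conf cm} {l : List (Move cm.k cm.Q)}
    (h : Run e cm C l C') : C.u.length = C'.u.length + l.length := by
  induction h with
  | nil C => simp
  | @cons C C₁ C₂ m l hs hr ih =>
    rcases cm_step hs with ⟨t, h1, h2, -⟩ | ⟨t, h1, h2, -⟩ <;>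
    · rw [h1, List.length_cons, ← h2, ih, List.length_cons]
      ring

theorem cm_det (e : Bool) : Deterministic e cm := by
  rintro C C₁ C₂ ⟨s₁, d₁, c₁⟩ ⟨s₂, d₂, c₂⟩ ⟨⟨hd₁, hm₁⟩, -⟩ ⟨⟨hd₂, hm₂⟩, -⟩
  simp only at hd₁ hd₂
  subst hd₁ hd₂
  rcases hm₁ with ⟨hx, hq', hs, hch⟩ | ⟨hx, hs, hz, hch⟩ | ⟨hx, hs, hz, hch⟩ <;>
  rcases hm₂ with ⟨hx', hq'', hs', hch'⟩ | ⟨hx', hs', hz', hch'⟩ | ⟨hx', hs', hz', hch'⟩ <;>
  simp only at hs hs' hch hch' <;> subst hs hs' hch hch' <;>
  first
  | rfl
  | exact absurd hz hz'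
  | exact absurd hz' hz
  | exact absurd (hx.symm.trans hx') (by simp)

theorem cm_qr (e : Bool) : QuasiRealtime e cm := by
  refine ⟨0, fun w l₁ l₂ C₁ C₂ _ h hu => ?_⟩
  have := cm_length h
  rw [hu] at this
  omega

theorem cm_lang_true {e : Bool} {C C' : Conf cm} {l : List (Move cm.k cm.Q)}
    (h : Run e cm C l C') (hq : C.q = true) (hu : C'.u = []) (hv : C'.v 0 = 0) :
    ∃ m, C.v 0 ≤ m ∧ C.u = List.replicate m true := by
  induction h with
  | nil C => exact ⟨0, by omega, by simpa using hu⟩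
  | @cons C C₁ C₂ m l hs hr ih =>
    rcases cm_step hs with ⟨t, h1, h2, h3, -⟩ | ⟨t, h1, h2, h3, h4⟩
    · rw [hq] at h3
      exact absurd h3 (by simp)
    · obtain ⟨m', hm', hu'⟩ := ih h3 hu hv
      refine ⟨m' + 1, ?_, ?_⟩
      · rcases h4 with ⟨-, h4, -⟩ | ⟨-, h4⟩
        · rw [h4]; exact Nat.zero_le _
        · rw [h4]; omega
      · rw [h1, ← h2, hu', List.replicate_succ]

theorem cm_lang_false {e : Bool} {C C' : Conf cm} {l : List (Move cm.k cm.Q)}
    (h : Run e cm C l C') (hu : C'.u = []) (hv : C'.v 0 = 0) :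
    ∃ n m, C.v 0 + n ≤ m ∧ C.u = List.replicate n false ++ List.replicate m true := by
  induction h with
  | nil C => exact ⟨0, 0, by omega, by simpa using hu⟩
  | @cons C C₁ C₂ m l hs hr ih =>
    rcases cm_step hs with ⟨t, h1, h2, h3, h4, -, h5⟩ | ⟨t, h1, h2, h3, h4⟩
    · obtain ⟨n', m', hm', hu'⟩ := ih hu hv
      refine ⟨n' + 1, m', ?_, ?_⟩
      · omega
      · rw [h1, ← h2, hu', List.replicate_succ, List.cons_append]
    · obtain ⟨m', hm', hu'⟩ := cm_lang_true hr h3 hu hv
      refine ⟨0, m' + 1, ?_, ?_⟩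
      · rcases h4 with ⟨-, h4, -⟩ | ⟨-, h4⟩
        · rw [h4]; omega
        · rw [h4]; omega
      · rw [h1, ← h2, hu', List.replicate_succ]
        simp

theorem cm_rev_true {e : Bool} {C C' : Conf cm} {l : List (Move cm.k cm.Q)}
    (h : Run e cm C l C') (hq : C.q = true) (d : ℤ) :
    rev d (l.map fun m => m.chg 0) ≤ 1 ∧ (d ≤ 0 → rev d (l.map fun m => m.chg 0) = 0) := by
  induction h generalizing d with
  | nil C => simp [rev]
  | @cons C C₁ C₂ m l hs hr ih =>
    rcases cm_step hs with ⟨t, h1, h2, h3, -⟩ | ⟨t, h1, h2, h3, h4⟩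
    · rw [hq] at h3
      exact absurd h3 (by simp)
    · rw [List.map_cons]
      unfold rev
      rcases h4 with ⟨h4, -⟩ | ⟨h4, -⟩
      · rw [if_pos h4]
        exact ih h3 d
      · rw [if_neg (by rw [h4]; norm_num), h4]
        have h0 := (ih h3 (-1)).2 (by norm_num)
        rw [h0]
        refine ⟨by split_ifs <;> omega, fun hd => ?_⟩
        rw [if_neg (by linarith)]

theorem cm_rev {e : Bool} {C C' : Conf cm} {l : List (Move cm.k cm.Q)}
    (h : Run e cm C l C') (d : ℤ) (hd : 0 ≤ d) :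
    rev d (l.map fun m => m.chg 0) ≤ 1 := by
  induction h generalizing d with
  | nil C => simp [rev]
  | @cons C C₁ C₂ m l hs hr ih =>
    rcases cm_step hs with ⟨t, h1, h2, h3, h4, h5, -⟩ | ⟨t, h1, h2, h3, h4⟩
    · rw [List.map_cons]
      unfold rev
      rw [if_neg (by rw [h5]; norm_num), h5, if_neg (by linarith)]
      simpa using ih 1 (by norm_num)
    · rw [List.map_cons]
      unfold rev
      rcases h4 with ⟨h4, -⟩ | ⟨h4, -⟩
      · rw [if_pos h4]
        exact (cm_rev_true hr h3 d).1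
      · rw [if_neg (by rw [h4]; norm_num), h4, (cm_rev_true hr h3 (-1)).2 (by norm_num)]
        split_ifs <;> omega

theorem cm_run_b {e : Bool} (m : ℕ) : ∀ (q : Bool) (v : Fin 1 → ℕ), v 0 ≤ m →
    ∃ (l : List (Move cm.k cm.Q)) (q' : Bool),
      Run e cm ⟨q, List.replicate m true, v⟩ l ⟨q', [], fun _ => 0⟩ := by
  induction m with
  | zero =>
    intro q v hv
    have : v = fun _ => 0 := by
      funext i
      have : i = 0 := Subsingleton.elim _ _
      rw [this]; omega
    subst this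
    exact ⟨[], q, Run.nil _⟩
  | succ m ih =>
    intro q v hv
    obtain ⟨l, q', h⟩ := ih true (fun _ => v 0 - 1) (by omega)
    by_cases hz : v 0 = 0
    · refine ⟨⟨true, true, fun _ => 0⟩ :: l, q', Run.cons (C₁ := ⟨true, List.replicate m true,
        fun _ => v 0 - 1⟩) ?_ h⟩
      refine ⟨⟨rfl, Or.inr (Or.inl ⟨by simp [List.replicate_succ], rfl, hz, rfl⟩)⟩, by simp, rfl,
        fun _ => ⟨true, by simp [List.replicate_succ]⟩, by simp, fun i => ?_⟩
      have : i = (0 : Fin 1) := Subsingleton.elim _ _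
      subst this
      simp [hz]
    · refine ⟨⟨true, true, fun _ => -1⟩ :: l, q', Run.cons (C₁ := ⟨true, List.replicate m true,
        fun _ => v 0 - 1⟩) ?_ h⟩
      refine ⟨⟨rfl, Or.inr (Or.inr ⟨by simp [List.replicate_succ], rfl, hz, rfl⟩)⟩, by simp, rfl,
        fun _ => ⟨true, by simp [List.replicate_succ]⟩, by simp, fun i => ?_⟩
      have : i = (0 : Fin 1) := Subsingleton.elim _ _
      subst this
      refine ⟨Or.inl rfl, ?_⟩
      show ((v 0 - 1 : ℕ) : ℤ) = v 0 + -1
      omega

theorem cm_run_a {e : Bool} (n : ℕ) {t : List Bool} {C : Conf cm} :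
    ∀ (v : Fin 1 → ℕ) {l : List (Move cm.k cm.Q)},
      Run e cm ⟨false, t, fun _ => v 0 + n⟩ l C →
      ∃ l' : List (Move cm.k cm.Q), Run e cm ⟨false, List.replicate n false ++ t, v⟩ l' C := by
  induction n with
  | zero =>
    intro v l h
    have h2 : (fun _ : Fin 1 => v 0 + 0) = v := by
      funext i
      have : i = (0 : Fin 1) := Subsingleton.elim _ _
      rw [this]
      rfl
    have h3 : Run e cm ⟨false, t, v⟩ l C := h2 ▸ h
    exact ⟨l, h3⟩
  | succ n ih =>
    intro v l h
    obtain ⟨l', h'⟩ := ih (fun _ => v 0 + 1) (l := l) (by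
      convert h using 3
      ring)
    refine ⟨⟨false, true, fun _ => 1⟩ :: l', Run.cons (C₁ := ⟨false,
      List.replicate n false ++ t, fun _ => v 0 + 1⟩) ?_ h'⟩
    refine ⟨⟨rfl, Or.inl ⟨by simp [List.replicate_succ], rfl, rfl, rfl⟩⟩, by simp, rfl,
      fun _ => ⟨false, by simp [List.replicate_succ]⟩, by simp, fun i => ?_⟩
    have : i = (0 : Fin 1) := Subsingleton.elim _ _
    subst this
    refine ⟨Or.inr (Or.inr rfl), ?_⟩
    show ((v 0 + 1 : ℕ) : ℤ) = v 0 + 1
    push_cast
    ring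

theorem cm_lang (e : Bool) (c : ℕ∞) (hc : 1 ≤ c) : langR e c cm = Lnm := by
  ext w
  constructor
  · rintro ⟨l, C, hr, hu, -, hv, -⟩
    obtain ⟨n, m, h, hw⟩ := cm_lang_false hr hu (hv 0)
    exact ⟨n, m, by simpa [init] using h, hw⟩
  · rintro ⟨n, m, hnm, rfl⟩
    obtain ⟨l, q', h⟩ := cm_run_b (e := e) m false (fun _ => 0 + n) (by simpa using hnm)
    obtain ⟨l', h'⟩ := cm_run_a (e := e) n (fun _ => 0) h
    refine ⟨l', _, h', rfl, Set.mem_univ _, fun _ => rfl, ?_⟩
    refine le_trans ?_ hc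
    have h1 := cm_rev h' 0 le_rfl
    have h2 : reversals l' = rev 0 (l'.map fun m => m.chg 0) := by
      unfold reversals
      exact Fin.sum_univ_one _
    rw [h2]
    exact_mod_cast h1

theorem Lnm_mem (e : Bool) (c : ℕ∞) (hc : 1 ≤ c) : Lnm ∈ DCounter e c Bool :=
  ⟨cm, cm_det e, cm_qr e, cm_lang e c hc⟩

/-! ### No reversals -/

theorem rev_pos_sum {l : List ℤ} : ∀ {d : ℤ}, 0 < d → rev d l = 0 → 0 ≤ l.sum := by
  induction l with
  | nil => simp
  | cons y ys ih =>
    intro d hd hr
    unfold rev at hr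
    rw [List.sum_cons]
    by_cases hy : y = 0
    · rw [if_pos hy] at hr
      rw [hy, zero_add]
      exact ih hd hr
    · rw [if_neg hy] at hr
      have h1 : ¬ d * y < 0 := by
        intro h
        rw [if_pos h] at hr
        omega
      rw [if_neg h1, zero_add] at hr
      have hy0 : 0 < y := by
        rcases lt_or_gt_of_ne hy with h | h
        · exact absurd (mul_neg_of_pos_of_neg hd h) h1
        · exact h
      have := ih hy0 hr
      linarith

/-- The machine which makes only the moves possible with all counters zero and without changes. -/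
def freeze {A : Type} (M : Machine A) : Machine A where
  k := M.k
  Q := M.Q
  fin := M.fin
  start := M.start
  final := M.final
  table := fun q x _ => {m | m ∈ M.table q x (fun _ => True) ∧ ∀ i, m.chg i = 0}

variable {A : Type} {e : Bool} {M : Machine A}

theorem freeze_step {C C' : Conf (freeze M)} {m : Move M.k M.Q} (h : Step e (freeze M) C m C') :
    Step e M ⟨C.q, C.u, fun _ => 0⟩ m ⟨C'.q, C'.u, fun _ => 0⟩ ∧ ∀ i, m.chg i = 0 := by
  obtain ⟨⟨hm, h0⟩, he, hq, ha, hs, hc⟩ := h
  refine ⟨⟨?_, he, hq, ha, hs, fun i => ⟨Or.inr (Or.inl (h0 i)), ?_⟩⟩, h0⟩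
  · have : (fun i : Fin M.k => (0 : ℕ) = 0) = fun _ => True := by simp
    show m ∈ M.table C.q C.u.head? (fun _ => (0 : ℕ) = 0)
    rw [this]
    exact hm
  · rw [h0 i]
    simp

theorem freeze_run {C C' : Conf (freeze M)} {l : List (Move M.k M.Q)}
    (h : Run e (freeze M) C l C') :
    Run e M ⟨C.q, C.u, fun _ => 0⟩ l ⟨C'.q, C'.u, fun _ => 0⟩ := by
  induction h with
  | nil C => exact Run.nil _
  | cons hs hr ih => exact Run.cons (freeze_step hs).1 ih

theorem run_freeze {C C' : Conf M} {l : List (Move M.k M.Q)} (h : Run e M C l C')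
    (hC : ∀ i, C.v i = 0) (hC' : ∀ i, C'.v i = 0)
    (hr : ∀ i, rev 0 (l.map fun m => m.chg i) = 0) :
    Run e (freeze M) ⟨C.q, C.u, fun _ => 0⟩ l ⟨C'.q, C'.u, fun _ => 0⟩ := by
  induction h with
  | nil C => exact Run.nil _
  | @cons C C₁ C₂ m l hs hrun ih =>
    obtain ⟨hm, he, hq, ha, hst, hc⟩ := hs
    have h0 : ∀ i, m.chg i = 0 := by
      intro i
      have h1 := (hc i).2
      rw [hC i] at h1
      by_contra hne
      have h2 : m.chg i = 1 := by
        rcases (hc i).1 with h | h | h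
        · rw [h] at h1
          exfalso
          have : (0 : ℤ) ≤ C₁.v i := Int.natCast_nonneg _
          simp at h1
        · exact absurd h hne
        · exact h
      have h3 := hr i
      rw [List.map_cons] at h3
      unfold rev at h3
      rw [if_neg hne, h2] at h3
      simp only [zero_mul, lt_irrefl, if_false, zero_add] at h3
      have h4 := rev_pos_sum one_pos h3
      have h5 := (hrun.tot_eq i).1
      rw [hC' i, h1, h2] at h5
      unfold tot at h5
      push_cast at h5
      linarith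
    have hC₁ : ∀ i, C₁.v i = 0 := by
      intro i
      have h1 := (hc i).2
      rw [hC i, h0 i] at h1
      exact_mod_cast h1
    refine Run.cons (M := freeze M) (C₁ := ⟨C₁.q, C₁.u, fun _ => 0⟩) ?_
      (ih hC₁ hC' fun i => ?_)
    · refine ⟨⟨?_, h0⟩, he, hq, ha, hst, fun i => ⟨Or.inr (Or.inl (h0 i)), ?_⟩⟩
      · have : (fun i : Fin M.k => C.v i = 0) = fun _ => True := by
          funext i
          simp [hC i]
        rw [this] at hm
        exact hm
      · show ((0 : ℕ) : ℤ) = (0 : ℕ) + m.chg i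
        rw [h0 i]
        simp
    · have h3 := hr i
      rw [List.map_cons] at h3
      unfold rev at h3
      rwa [if_pos (h0 i)] at h3

theorem reversals_eq_zero {k : ℕ} {Q : Type} {l : List (Move k Q)} :
    reversals l = 0 ↔ ∀ i, rev 0 (l.map fun m => m.chg i) = 0 := by
  unfold reversals
  simp

theorem dcounter_zero_le (e : Bool) (A : Type) : DCounter e 0 A ⊆ DPBlind e 0 A := by
  rintro L ⟨M, hd, ⟨d, hqr⟩, rfl⟩
  refine ⟨freeze M, ?_, ⟨d, ?_⟩, fun _ _ _ _ => rfl, ?_⟩
  · intro C C₁ C₂ m₁ m₂ h₁ h₂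
    exact hd _ _ _ _ _ (freeze_step h₁).1 (freeze_step h₂).1
  · intro w l₁ l₂ C₁ C₂ h₁ h₂ hu
    exact hqr w l₁ l₂ _ _ (freeze_run h₁) (freeze_run h₂) hu
  · ext w
    constructor
    · rintro ⟨l, C, hr, hu, hf, hv, hl⟩
      exact ⟨l, ⟨C.q, C.u, fun _ => 0⟩, freeze_run hr, hu, hf, fun _ => rfl, hl⟩
    · rintro ⟨l, C, hr, hu, hf, hv, hl⟩
      refine ⟨l, ⟨C.q, C.u, fun _ => 0⟩, run_freeze hr (fun _ => rfl) hv ?_, hu, hf,
        fun _ => rfl, hl⟩
      rw [← reversals_eq_zero]
      simpa using hl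

theorem dpblind_le (e : Bool) (c : ℕ∞) (A : Type) : DPBlind e c A ⊆ DCounter e c A := by
  rintro L ⟨M, hd, hqr, -, hL⟩
  exact ⟨M, hd, hqr, hL⟩

end Run7.h452.PB
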